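import Mathlib
import Pool.Agent.W218.PF.DenseC

/-!
Simultaneous prime values of `a_1 n + 1, ..., a_s n + 1` for `n` in an arbitrary dense set `T` of small primes: the
expected number for a positive proportion of the vectors `(a_1, ..., a_s)`.
-/

namespace Pool.Agent.Results.MP_bca3e5_nt.DenseSetsOfArguments
open Finset

/-- the number of `n ∈ T` with all `a_i n + 1` prime -/
def count {s : ℕ} (a : Fin s → ℕ) (T : Finset ℕ) : ℕ := (T.filter (fun n : ℕ => ∀ i, (a i * n + 1).Prime)).card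

/-- the number of `n ∈ T` for which no `a_i n + 1` has a prime factor `≤ z` -/
def rough {s : ℕ} (z : ℕ) (a : Fin s → ℕ) (T : Finset ℕ) : ℕ :=
  (T.filter (fun n : ℕ => ∀ i, ∀ p ≤ z, p.Prime → ¬ p ∣ a i * n + 1)).card

/-- the expected number of `n ∈ T` with all `a_i n + 1` prime, in terms of the sifted set -/
noncomputable def expected {s : ℕ} (z : ℕ) (a : Fin s → ℕ) (T : Finset ℕ) (y : ℝ) : ℝ :=
  (rough z a T / (∏ p ∈ (Icc 1 z).filter Nat.Prime, (1 - 1 / (p : ℝ))) ^ s) / Real.log y ^ s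

open Classical in
theorem result (s : ℕ) (hs : 1 ≤ s) : ∃ K : ℕ, ∀ c δ : ℝ, 0 < c → 0 < δ → ∀ θ : ℝ, 0 < θ → θ < 1 →
    ∃ κ : ℝ, 0 < κ ∧ ∃ D₀ : ℕ, ∀ D : ℕ, D₀ ≤ D → ∀ z : ℕ,
      ((∏ p ∈ (Icc 1 z).filter Nat.Prime, p : ℕ) : ℝ) ≤ κ * D → ∀ x : ℕ,
      c * Real.log D ^ s ≤ x / Real.log x → x * Real.log D ^ K ≤ D →
      ∀ T : Finset ℕ, T ⊆ (Ioc (s + 2) x).filter Nat.Prime → δ * (x / Real.log x) ≤ T.card →
      κ * D ^ s ≤ (((Fintype.piFinset (fun _ : Fin s => Icc 1 D)).filter (fun a =>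
        Function.Injective a ∧
        (∀ p : ℕ, p.Prime → ∃ n : ℕ, ¬ p ∣ n * ∏ i, (a i * n + 1)) ∧
        κ * T.card / Real.log D ^ s ≤ count a T ∧
        θ * expected z a T (D * x) ≤ count a T)).card : ℝ) := by
  obtain ⟨K, h⟩ := Pool.Agent.W218.PF.denseC s hs
  refine ⟨K, fun c δ hc hδ θ hθ0 hθ => ?_⟩
  obtain ⟨κ, hκ, D₀, h2⟩ := h c δ hc hδ θ hθ0 hθ
  refine ⟨κ, hκ, D₀, fun D hD z hz x hcx hxD T hT hTc => ?_⟩
  refine (h2 D hD z hz x hcx hxD T hT hTc).trans ?_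
  apply Nat.cast_le.2
  apply card_le_card
  intro a ha
  rw [mem_filter] at ha ⊢
  refine ⟨ha.1, ha.2.1, ha.2.2.1, ha.2.2.2.1, le_trans (le_of_eq ?_) ha.2.2.2.2⟩
  unfold expected
  rw [mul_div_assoc]
  rfl

end Pool.Agent.Results.MP_bca3e5_nt.DenseSetsOfArguments
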